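import Pool.Agent.Lib.MP_4bd73f_an.Threshold

/-!
Every quasi-greedy basis of a superreflexive Banach space induces an embedding into a Lorentz
sequence space `d_{1,r}(w_l)` with `r < ∞`.
-/

namespace Pool.Agent.Results.MP_4bd73f_an.LorentzEmbedding

section Defs

variable {𝕜 : Type*} [RCLike 𝕜] {X : Type*} [NormedAddCommGroup X] [NormedSpace 𝕜 X]

/-- `x` is a basis with biorthogonal functionals `xs`: dense linear span, biorthogonality, the
functionals separate points, and all norms are uniformly bounded. -/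
structure IsBasis (x : ℕ → X) (xs : ℕ → X →L[𝕜] 𝕜) : Prop where
  dense_span : Dense (Submodule.span 𝕜 (Set.range x) : Set X)
  biorthogonal : ∀ n k, xs n (x k) = if n = k then 1 else 0
  separating : ∀ f : X, (∀ n, xs n f = 0) → f = 0
  bounded : ∃ M : ℝ, ∀ n, ‖x n‖ ≤ M ∧ ‖xs n‖ ≤ M

/-- The finite set `A` is greedy for `f`. -/
def IsGreedySet (xs : ℕ → X →L[𝕜] 𝕜) (f : X) (A : Finset ℕ) : Prop :=
  ∀ n ∈ A, ∀ k ∉ A, ‖xs k f‖ ≤ ‖xs n f‖

/-- The greedy sums are uniformly bounded. -/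
def IsQuasiGreedy (x : ℕ → X) (xs : ℕ → X →L[𝕜] 𝕜) : Prop :=
  ∃ C : ℝ, ∀ (f : X) (A : Finset ℕ), 1 ≤ A.card → IsGreedySet xs f A →
    ‖∑ n ∈ A, xs n f • x n‖ ≤ C * ‖f‖

/-- The lower democracy function `φ_l`. -/
noncomputable def lowerDemocracy (𝕜 : Type*) [RCLike 𝕜] [NormedSpace 𝕜 X] (x : ℕ → X)
    (m : ℕ) : ℝ :=
  if m = 0 then 0 else
    sInf {t : ℝ | ∃ (A : Finset ℕ) (ε : ℕ → 𝕜), m ≤ A.card ∧ (∀ n ∈ A, ‖ε n‖ = 1) ∧
      t = ‖∑ n ∈ A, ε n • x n‖}

/-- The weight `w_l`, used for `m ≥ 1`: `w_m = φ_l(m) - φ_l(m - 1)`. -/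
noncomputable def lowerWeight (𝕜 : Type*) [RCLike 𝕜] [NormedSpace 𝕜 X] (x : ℕ → X)
    (m : ℕ) : ℝ :=
  lowerDemocracy 𝕜 x m - lowerDemocracy 𝕜 x (m - 1)

/-- The primitive sequence `s_m = w_1 + ⋯ + w_m` of a weight. -/
def primitive (w : ℕ → ℝ) (m : ℕ) : ℝ := ∑ k ∈ Finset.Icc 1 m, w k

/-- The nonincreasing rearrangement `a_m^*`, `m ≥ 1`, of the moduli of a null sequence `a`:
the least `t ≥ 0` such that fewer than `m` indices have `|a_n| > t`. -/
noncomputable def rearrangement (a : ℕ → 𝕜) (m : ℕ) : ℝ :=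
  sInf {t : ℝ | 0 ≤ t ∧ {n | t < ‖a n‖}.encard < m}

/-- The `m`-th term `(a_m^*)^r s_m^(r-1) w_m` of the series defining the norm of `d_{1,r}(w)`. -/
noncomputable def lorentzTerm (r : ℝ) (w : ℕ → ℝ) (a : ℕ → 𝕜) (m : ℕ) : ℝ :=
  rearrangement a m ^ r * primitive w m ^ (r - 1) * w m

/-- The coefficient map sends `X` boundedly into `d_{1,r}(w)`: coefficient sequences are null,
the series converges, and its `1/r`-th power is at most `C ‖f‖`. -/
def EmbedsInLorentz (xs : ℕ → X →L[𝕜] 𝕜) (r : ℝ) (w : ℕ → ℝ) : Prop :=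
  ∃ C : ℝ, ∀ f : X, Filter.Tendsto (fun n => xs n f) Filter.atTop (nhds 0) ∧
    Summable (fun m => lorentzTerm r w (fun n => xs n f) (m + 1)) ∧
    (∑' m, lorentzTerm r w (fun n => xs n f) (m + 1)) ^ (1 / r) ≤ C * ‖f‖

end Defs

section Proof

open Finset

variable {𝕜 : Type*} [RCLike 𝕜] {X : Type*} [NormedAddCommGroup X] [NormedSpace 𝕜 X]

lemma bdd_dem (x : ℕ → X) (m : ℕ) :
    BddBelow {t : ℝ | ∃ (A : Finset ℕ) (ε : ℕ → 𝕜), m ≤ A.card ∧ (∀ n ∈ A, ‖ε n‖ = 1) ∧
      t = ‖∑ n ∈ A, ε n • x n‖} :=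
  ⟨0, by rintro _ ⟨A, ε, -, -, rfl⟩; exact norm_nonneg _⟩

lemma dem_nonneg (x : ℕ → X) (m : ℕ) : 0 ≤ lowerDemocracy 𝕜 x m := by
  unfold lowerDemocracy
  split_ifs
  · exact le_rfl
  · exact Real.sInf_nonneg (by rintro _ ⟨A, ε, -, -, rfl⟩; exact norm_nonneg _)

lemma dem_le (x : ℕ → X) (A : Finset ℕ) (ε : ℕ → 𝕜) (hε : ∀ n ∈ A, ‖ε n‖ = 1) :
    lowerDemocracy 𝕜 x A.card ≤ ‖∑ n ∈ A, ε n • x n‖ := by
  unfold lowerDemocracy
  split_ifs
  · exact norm_nonneg _
  · exact csInf_le (bdd_dem x _) ⟨A, ε, le_rfl, hε, rfl⟩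

lemma dem_mono (x : ℕ → X) : Monotone (lowerDemocracy 𝕜 x) := by
  refine monotone_nat_of_le_succ fun m => ?_
  by_cases hm : m = 0
  · have := dem_nonneg (𝕜 := 𝕜) x (m + 1)
    rw [lowerDemocracy, if_pos hm]
    exact this
  · rw [lowerDemocracy, lowerDemocracy, if_neg hm, if_neg (Nat.succ_ne_zero m)]
    refine csInf_le_csInf (bdd_dem x _) ⟨_, range (m + 1), fun _ => 1, by simp, by simp, rfl⟩ ?_
    rintro _ ⟨A, ε, h1, h2, rfl⟩
    exact ⟨A, ε, by omega, h2, rfl⟩

lemma primitive_eq (x : ℕ → X) (m : ℕ) :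
    primitive (lowerWeight 𝕜 x) m = lowerDemocracy 𝕜 x m := by
  induction m with
  | zero => simp [primitive, lowerDemocracy]
  | succ m ih =>
    unfold primitive at ih ⊢
    rw [Finset.sum_Icc_succ_top (by omega), ih]
    simp [lowerWeight]

lemma rearrangement_nonneg (a : ℕ → 𝕜) (m : ℕ) : 0 ≤ rearrangement a m :=
  Real.sInf_nonneg fun _ h => h.1

lemma rearrangement_le (a : ℕ → 𝕜) (m : ℕ) {t : ℝ} (ht : 0 ≤ t)
    (h : {n | t < ‖a n‖}.encard < m) : rearrangement a m ≤ t :=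
  csInf_le ⟨0, fun _ h => h.1⟩ ⟨ht, h⟩

lemma finite_large {x : ℕ → X} {xs : ℕ → X →L[𝕜] 𝕜} (hb : IsBasis x xs) (f : X) {t : ℝ}
    (ht : 0 < t) : {n | t < ‖xs n f‖}.Finite := by
  obtain ⟨M, hM⟩ := hb.bounded
  have hM0 : 0 ≤ M := (norm_nonneg _).trans (hM 0).2
  obtain ⟨g, hg, hfg⟩ := hb.dense_span.exists_dist_lt f (ε := t / (M + 1)) (by positivity)
  have hfin : {n | xs n g ≠ 0}.Finite := by
    refine Submodule.span_induction (p := fun g _ => {n | xs n g ≠ 0}.Finite) ?_ ?_ ?_ ?_ hg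
    · rintro _ ⟨k, rfl⟩
      refine (Set.finite_singleton k).subset fun n hn => ?_
      by_contra hne
      exact hn (by rw [hb.biorthogonal, if_neg (show ¬ n = k from hne)])
    · simp
    · intro g1 g2 _ _ h1 h2
      refine (h1.union h2).subset fun n hn => ?_
      by_contra hne
      simp only [Set.mem_union, Set.mem_ofPred_eq, not_or, not_not] at hne
      exact hn (by rw [map_add, hne.1, hne.2, add_zero])
    · intro c g1 _ h1
      refine h1.subset fun n hn h0 => ?_
      exact hn (by rw [map_smul, h0, smul_zero])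
  refine hfin.subset fun n hn h0 => ?_
  have h1 : xs n f = xs n (f - g) := by rw [map_sub, h0, sub_zero]
  have h2 : ‖xs n f‖ ≤ M * ‖f - g‖ := by
    rw [h1]
    exact ((xs n).le_opNorm _).trans (mul_le_mul_of_nonneg_right (hM n).2 (norm_nonneg _))
  rw [dist_eq_norm, lt_div_iff₀ (by positivity)] at hfg
  have h3 : t < ‖xs n f‖ := hn
  nlinarith [norm_nonneg (f - g)]

lemma coeff_null {x : ℕ → X} {xs : ℕ → X →L[𝕜] 𝕜} (hb : IsBasis x xs) (f : X) :
    Filter.Tendsto (fun n => xs n f) Filter.atTop (nhds 0) := by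
  rw [← Nat.cofinite_eq_atTop, Metric.tendsto_nhds]
  intro t ht
  refine (finite_large hb f (half_pos ht)).subset fun n hn => ?_
  simp only [dist_zero_right, Set.mem_compl_iff, Set.mem_ofPred_eq, not_lt] at hn ⊢
  linarith

lemma coeff_sum {x : ℕ → X} {xs : ℕ → X →L[𝕜] 𝕜} (hb : IsBasis x xs) (F : Finset ℕ)
    (c : ℕ → 𝕜) (k : ℕ) : xs k (∑ n ∈ F, c n • x n) = if k ∈ F then c k else 0 := by
  simp only [map_sum, map_smul, hb.biorthogonal, smul_eq_mul, mul_ite, mul_one, mul_zero]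
  exact Finset.sum_ite_eq F k c

/-- Summation by levels. -/
lemma level_sum (s : ℕ → ℝ) (hs0 : s 0 = 0) (hs : Monotone s) (b : ℕ → ℝ) (hb : ∀ m, 0 ≤ b m)
    (T : ℝ) (hT : 0 ≤ T) (r : ℕ) (hr : 1 ≤ r) (c : ℕ → ℕ) (N M : ℕ)
    (h : ∀ m < M, b (m + 1) ≠ 0 → ∃ k < N, b (m + 1) ≤ 2 * (T / 2 ^ k) ∧ m + 1 ≤ c k) :
    ∑ m ∈ range M, b (m + 1) ^ r * s (m + 1) ^ (r - 1) * (s (m + 1) - s m) ≤
      2 ^ r * ∑ k ∈ range N, (T / 2 ^ k * s (c k)) ^ r := by
  have hsn : ∀ m, 0 ≤ s m := fun m => hs0 ▸ hs (Nat.zero_le m)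
  have hd : ∀ m, 0 ≤ s (m + 1) ^ r - s m ^ r := fun m =>
    sub_nonneg.2 (pow_le_pow_left₀ (hsn m) (hs (Nat.le_succ m)) r)
  have h1 : ∀ m, s (m + 1) ^ (r - 1) * (s (m + 1) - s m) ≤ s (m + 1) ^ r - s m ^ r := by
    intro m
    obtain ⟨q, rfl⟩ : ∃ q, r = q + 1 := ⟨r - 1, by omega⟩
    have := pow_le_pow_left₀ (hsn m) (hs (Nat.le_succ m)) q
    simp only [Nat.add_sub_cancel, pow_succ]
    nlinarith [hsn m]
  calc ∑ m ∈ range M, b (m + 1) ^ r * s (m + 1) ^ (r - 1) * (s (m + 1) - s m)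
      ≤ ∑ m ∈ range M, ∑ k ∈ range N,
          if m < c k then (2 * (T / 2 ^ k)) ^ r * (s (m + 1) ^ r - s m ^ r) else 0 := by
        refine sum_le_sum fun m hm => ?_
        have hnn : ∀ k ∈ range N, 0 ≤
            if m < c k then (2 * (T / 2 ^ k)) ^ r * (s (m + 1) ^ r - s m ^ r) else 0 := by
          intro k _
          split_ifs
          · exact mul_nonneg (by positivity) (hd m)
          · exact le_rfl
        by_cases hb0 : b (m + 1) = 0
        · rw [hb0, zero_pow (by omega), zero_mul, zero_mul]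
          exact sum_nonneg hnn
        · obtain ⟨k, hk, h2, h3⟩ := h m (mem_range.1 hm) hb0
          refine le_trans ?_ (single_le_sum hnn (mem_range.2 hk))
          rw [if_pos (by omega), mul_assoc]
          exact mul_le_mul (pow_le_pow_left₀ (hb _) h2 r) (h1 m)
            (mul_nonneg (pow_nonneg (hsn _) _) (sub_nonneg.2 (hs (Nat.le_succ m))))
            (by positivity)
    _ = ∑ k ∈ range N, ∑ m ∈ range M,
          if m < c k then (2 * (T / 2 ^ k)) ^ r * (s (m + 1) ^ r - s m ^ r) else 0 := sum_comm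
    _ ≤ ∑ k ∈ range N, 2 ^ r * (T / 2 ^ k * s (c k)) ^ r := by
        refine sum_le_sum fun k _ => ?_
        rw [← sum_filter]
        have hsub : (range M).filter (fun m => m < c k) ⊆ range (c k) := by
          intro m hm
          exact mem_range.2 (mem_filter.1 hm).2
        refine (sum_le_sum_of_subset_of_nonneg hsub fun m _ _ =>
          mul_nonneg (by positivity) (hd m)).trans ?_
        rw [← mul_sum, sum_range_sub (fun m => s m ^ r), hs0, zero_pow (by omega), sub_zero,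
          mul_pow, mul_pow, mul_assoc]
    _ = _ := by rw [mul_sum]

end Proof

open Finset Pool.Agent.Lib.MP_4bd73f_an in
/-- Let `x` be a quasi-greedy basis of a Banach space `X` isomorphic to a uniformly convex
Banach space `Y`. Then `X` embeds, through the coefficient map, into `d_{1,r}(w_l)` for some
real `r ≥ 1`. -/
theorem result {𝕜 : Type*} [RCLike 𝕜]
    {X : Type*} [NormedAddCommGroup X] [NormedSpace 𝕜 X] [CompleteSpace X]
    {Y : Type*} [NormedAddCommGroup Y] [NormedSpace 𝕜 Y] [CompleteSpace Y] [UniformConvexSpace Y]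
    (hXY : Nonempty (X ≃L[𝕜] Y))
    (x : ℕ → X) (xs : ℕ → X →L[𝕜] 𝕜) (hb : IsBasis x xs) (hq : IsQuasiGreedy x xs) :
    ∃ r : ℝ, 1 ≤ r ∧ EmbedsInLorentz xs r (lowerWeight 𝕜 x) := by
  classical
  obtain ⟨T⟩ := hXY
  let _ : NormedSpace ℝ Y := NormedSpace.restrictScalars ℝ 𝕜 Y
  have hsm : ∀ (c : ℝ) (y : Y), c • y = (c : 𝕜) • y := fun _ _ => rfl
  obtain ⟨Q0, hQ0⟩ := hq
  obtain ⟨M, hM⟩ := hb.bounded
  have hM0 : 0 ≤ M := (norm_nonneg _).trans (hM 0).2
  set Q := max Q0 0 + 1 with hQdef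
  have hQpos : 0 < Q := by positivity
  have hQ : ∀ (f : X) (A : Finset ℕ), IsGreedySet xs f A →
      ‖∑ n ∈ A, xs n f • x n‖ ≤ Q * ‖f‖ := by
    intro f A hA
    rcases A.eq_empty_or_nonempty with rfl | hne
    · simp only [sum_empty, norm_zero]
      positivity
    · refine (hQ0 f A hne.card_pos hA).trans (mul_le_mul_of_nonneg_right ?_ (norm_nonneg _))
      linarith [le_max_left Q0 0]
  set α := ‖(T : X →L[𝕜] Y)‖ + 1 with hα
  set β := ‖(T.symm : Y →L[𝕜] X)‖ + 1 with hβ
  have hα0 : 0 < α := by positivity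
  have hβ0 : 0 < β := by positivity
  have hTα : ∀ g : X, ‖T g‖ ≤ α * ‖g‖ := fun g =>
    ((T : X →L[𝕜] Y).le_opNorm g).trans
      (mul_le_mul_of_nonneg_right (by linarith) (norm_nonneg _))
  have hTβ : ∀ g : X, ‖g‖ ≤ β * ‖T g‖ := fun g => by
    have := ((T.symm : Y →L[𝕜] X).le_opNorm (T g))
    simp only [ContinuousLinearEquiv.coe_coe, ContinuousLinearEquiv.symm_apply_apply] at this
    exact this.trans (mul_le_mul_of_nonneg_right (by linarith) (norm_nonneg _))
  obtain ⟨r, hr, C, hC, hlev⟩ := level_estimate (Y := Y) (K := α * Q * β) (by positivity)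
  have hr0 : (0 : ℝ) < r := by exact_mod_cast hr
  refine ⟨r, by exact_mod_cast hr, (2 ^ r * β ^ r * C * (α * Q) ^ r) ^ (1 / (r : ℝ)), fun f => ?_⟩
  have hterm : ∀ m, lorentzTerm (r : ℝ) (lowerWeight 𝕜 x) (fun n => xs n f) (m + 1) =
      rearrangement (fun n => xs n f) (m + 1) ^ r * lowerDemocracy 𝕜 x (m + 1) ^ (r - 1) *
        (lowerDemocracy 𝕜 x (m + 1) - lowerDemocracy 𝕜 x m) := by
    intro m
    unfold lorentzTerm
    rw [primitive_eq, Real.rpow_natCast,
      show (r : ℝ) - 1 = ((r - 1 : ℕ) : ℝ) by rw [Nat.cast_sub hr, Nat.cast_one],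
      Real.rpow_natCast]
    simp [lowerWeight]
  have hnn : ∀ m, 0 ≤ lorentzTerm (r : ℝ) (lowerWeight 𝕜 x) (fun n => xs n f) (m + 1) := by
    intro m
    rw [hterm]
    exact mul_nonneg (mul_nonneg (pow_nonneg (rearrangement_nonneg _ _) _)
      (pow_nonneg (dem_nonneg _ _) _)) (sub_nonneg.2 (dem_mono x (Nat.le_succ m)))
  have hbound : ∀ J : ℕ,
      ∑ m ∈ range J, lorentzTerm (r : ℝ) (lowerWeight 𝕜 x) (fun n => xs n f) (m + 1) ≤
        2 ^ r * β ^ r * C * (α * Q) ^ r * ‖f‖ ^ r := by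
    intro J
    simp only [hterm]
    let a : ℕ → ℝ := fun n => ‖xs n f‖
    let ε : ℕ → 𝕜 := fun n => if xs n f = 0 then 1 else xs n f / (‖xs n f‖ : 𝕜)
    have hε : ∀ n, ‖ε n‖ = 1 := by
      intro n
      by_cases h0 : xs n f = 0
      · simp [ε, h0]
      · simp [ε, h0]
    have haε : ∀ n, (a n : 𝕜) * ε n = xs n f := by
      intro n
      by_cases h0 : xs n f = 0
      · simp [a, h0]
      · have : (‖xs n f‖ : 𝕜) ≠ 0 := by simpa using h0
        simp only [a, ε, if_neg h0]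
        field_simp
    set B := M * ‖f‖ + ‖f‖ with hB
    have haB : ∀ n, a n ≤ B := fun n =>
      (((xs n).le_opNorm f).trans (mul_le_mul_of_nonneg_right (hM n).2 (norm_nonneg _))).trans
        (by linarith [norm_nonneg f])
    have hB0 : 0 ≤ B := by positivity
    have hbB : ∀ m, rearrangement (fun n => xs n f) (m + 1) ≤ B := by
      intro m
      refine rearrangement_le _ _ hB0 ?_
      have : {n | B < ‖xs n f‖} = ∅ := by
        ext n
        simpa using haB n
      rw [this, Set.encard_empty]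
      exact_mod_cast Nat.succ_pos m
    rcases hB0.eq_or_lt with hBz | hBpos
    · refine le_trans (le_of_eq (sum_eq_zero fun m _ => ?_)) (by positivity)
      have := hbB m
      rw [← hBz] at this
      rw [le_antisymm this (rearrangement_nonneg _ _), zero_pow (by omega), zero_mul, zero_mul]
    have hN : ∃ N : ℕ, ∀ m ∈ range J, rearrangement (fun n => xs n f) (m + 1) ≠ 0 →
        B / 2 ^ N < rearrangement (fun n => xs n f) (m + 1) := by
      have hev : ∀ m ∈ range J, ∀ᶠ N : ℕ in Filter.atTop,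
          rearrangement (fun n => xs n f) (m + 1) ≠ 0 →
            B / 2 ^ N < rearrangement (fun n => xs n f) (m + 1) := by
        intro m _
        by_cases hi : rearrangement (fun n => xs n f) (m + 1) = 0
        · exact Filter.Eventually.of_forall fun J h => absurd hi h
        · have ht : Filter.Tendsto (fun J : ℕ => B / 2 ^ J) Filter.atTop (nhds 0) :=
            Filter.Tendsto.const_div_atTop (tendsto_pow_atTop_atTop_of_one_lt one_lt_two) B
          filter_upwards [ht.eventually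
            (gt_mem_nhds (lt_of_le_of_ne (rearrangement_nonneg _ _) (Ne.symm hi)))] with J hJ _
            using hJ
      exact ((Filter.eventually_all_finset _).2 hev).exists
    obtain ⟨N, hN⟩ := hN
    have hfin := finite_large hb f (t := B / 2 ^ N) (by positivity)
    set F := hfin.toFinset with hF
    have hmemF : ∀ n, n ∈ F ↔ B / 2 ^ N < a n := fun n => by simp [hF, a]
    let y : ℕ → Y := fun n => T (ε n • x n)
    have hy : ∀ (ρ : ℕ → ℝ) (A : Finset ℕ),
        ∑ n ∈ A, ρ n • y n = T (∑ n ∈ A, ((ρ n : 𝕜) * ε n) • x n) := by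
      intro ρ A
      rw [map_sum]
      refine sum_congr rfl fun n _ => ?_
      rw [hsm, ← smul_smul, map_smul]
    have hG : GreedyBound y F (α * Q * β) := by
      intro ρ hρ A hAF hA
      rw [hy, hy]
      set g := ∑ n ∈ F, ((ρ n : 𝕜) * ε n) • x n with hg
      have hc : ∀ k, xs k g = if k ∈ F then (ρ k : 𝕜) * ε k else 0 := coeff_sum hb F _
      have hgr : IsGreedySet xs g A := by
        intro n hn k hk
        rw [hc, hc, if_pos (hAF hn), norm_mul, hε, mul_one, RCLike.norm_ofReal,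
          abs_of_nonneg (hρ n)]
        split_ifs with hkF
        · rw [norm_mul, hε, mul_one, RCLike.norm_ofReal, abs_of_nonneg (hρ k)]
          exact hA n hn k hkF hk
        · rw [norm_zero]
          exact hρ n
      have h1 := hQ g A hgr
      have e : ∑ n ∈ A, xs n g • x n = ∑ n ∈ A, ((ρ n : 𝕜) * ε n) • x n :=
        sum_congr rfl fun n hn => by rw [hc, if_pos (hAF hn)]
      rw [e] at h1
      calc _ ≤ α * ‖∑ n ∈ A, ((ρ n : 𝕜) * ε n) • x n‖ := hTα _
        _ ≤ α * (Q * ‖g‖) := mul_le_mul_of_nonneg_left h1 hα0.le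
        _ ≤ α * (Q * (β * ‖T g‖)) :=
          mul_le_mul_of_nonneg_left (mul_le_mul_of_nonneg_left (hTβ g) hQpos.le) hα0.le
        _ = _ := by ring
    have h1 := hlev y F hG a (fun n => norm_nonneg _) B hB0 haB (N + 1)
    have h2 : ‖∑ n ∈ F, a n • y n‖ ≤ α * Q * ‖f‖ := by
      rw [hy]
      simp only [haε]
      refine (hTα _).trans ?_
      rw [mul_assoc]
      refine mul_le_mul_of_nonneg_left (hQ f F fun n hn k hk => ?_) hα0.le
      rw [hmemF] at hn hk
      exact (not_lt.1 hk).trans hn.le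
    let c : ℕ → ℕ := fun k => (F.filter fun n => B / 2 ^ k < a n).card
    have h3 := level_sum (lowerDemocracy 𝕜 x) (by simp [lowerDemocracy]) (dem_mono x)
      (rearrangement fun n => xs n f) (rearrangement_nonneg _) B hB0 r hr c (N + 1) J
      (fun m hm hne => by
        have hex : ∃ k : ℕ, B / 2 ^ k < rearrangement (fun n => xs n f) (m + 1) :=
          ⟨N, hN m (mem_range.2 hm) hne⟩
        obtain ⟨k, hkN, hk, hmin⟩ : ∃ k ≤ N, B / 2 ^ k < rearrangement (fun n => xs n f) (m + 1) ∧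
            ∀ j < k, ¬ B / 2 ^ j < rearrangement (fun n => xs n f) (m + 1) :=
          ⟨Nat.find hex, Nat.find_min' hex (hN m (mem_range.2 hm) hne), Nat.find_spec hex,
            fun j hj => Nat.find_min hex hj⟩
        refine ⟨k, by omega, ?_, ?_⟩
        · rcases k with _ | k
          · rw [pow_zero, div_one]
            linarith [hbB m]
          · have := hmin k (Nat.lt_succ_self k)
            have e : 2 * (B / 2 ^ (k + 1)) = B / 2 ^ k := by
              rw [pow_succ]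
              field_simp
            rw [e]
            exact not_lt.1 this
        · by_contra hlt
          push Not at hlt
          refine absurd hk (not_lt.2 (rearrangement_le _ _ (by positivity) ?_))
          have e : {n | B / 2 ^ k < ‖xs n f‖} =
              ((F.filter fun n => B / 2 ^ k < a n : Finset ℕ) : Set ℕ) := by
            ext n
            simp only [Set.mem_ofPred_eq, coe_filter, hmemF]
            refine ⟨fun h => ⟨lt_of_le_of_lt ?_ h, h⟩, fun h => h.2⟩
            exact div_le_div_of_nonneg_left hB0 (by positivity)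
              (pow_le_pow_right₀ one_le_two hkN)
          rw [e, Set.encard_coe_eq_coe_finsetCard]
          exact Nat.cast_lt.2 hlt)
    refine h3.trans ?_
    have h4 : ∑ k ∈ range (N + 1), (B / 2 ^ k * lowerDemocracy 𝕜 x (c k)) ^ r ≤
        β ^ r * ∑ k ∈ range (N + 1),
          (B / 2 ^ k * ‖∑ n ∈ F.filter (fun n => B / 2 ^ k < a n), y n‖) ^ r := by
      rw [mul_sum]
      refine sum_le_sum fun k _ => ?_
      rw [← mul_pow]
      refine pow_le_pow_left₀ (mul_nonneg (by positivity) (dem_nonneg _ _)) ?_ r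
      have h5 := dem_le x (F.filter fun n => B / 2 ^ k < a n) ε (fun n _ => hε n)
      have h6 := hTβ (∑ n ∈ F.filter (fun n => B / 2 ^ k < a n), ε n • x n)
      rw [map_sum] at h6
      have h7 := mul_le_mul_of_nonneg_left (h5.trans h6) (show 0 ≤ B / 2 ^ k by positivity)
      simp only [y, c]
      linarith
    have h8 : ‖∑ n ∈ F, a n • y n‖ ^ r ≤ (α * Q) ^ r * ‖f‖ ^ r := by
      rw [← mul_pow]
      exact pow_le_pow_left₀ (norm_nonneg _) h2 r
    calc 2 ^ r * ∑ k ∈ range (N + 1), (B / 2 ^ k * lowerDemocracy 𝕜 x (c k)) ^ r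
        ≤ 2 ^ r * (β ^ r * (C * ((α * Q) ^ r * ‖f‖ ^ r))) := by
          refine mul_le_mul_of_nonneg_left (h4.trans ?_) (by positivity)
          refine mul_le_mul_of_nonneg_left (h1.trans ?_) (by positivity)
          exact mul_le_mul_of_nonneg_left h8 hC
      _ = _ := by ring
  refine ⟨coeff_null hb f, summable_of_sum_range_le hnn hbound, ?_⟩
  have h9 := Real.tsum_le_of_sum_range_le hnn hbound
  refine (Real.rpow_le_rpow (tsum_nonneg hnn) h9 (by positivity)).trans (le_of_eq ?_)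
  rw [Real.mul_rpow (by positivity) (by positivity), one_div,
    Real.pow_rpow_inv_natCast (norm_nonneg _) (by omega)]

end Pool.Agent.Results.MP_4bd73f_an.LorentzEmbedding
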